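import Pool.Agent.N27.GN.NzA
import Pool.Agent.H82R3.AR.ThetaSq

/-!
# GN/NZ: `L(1, χ) ≠ 0` for real characters of `ℤ[i]`

With `χ₀ = χ²`: if `L(1, χ) = 0`, the function `L(s, χ₀) L(s, χ)` is entire, its Dirichlet series has
nonnegative coefficients, and it vanishes at `0` because of the factor `Γ(s)⁻¹`; this contradicts
the theorem of Landau.
-/

set_option autoImplicit false

namespace Pool.Agent.N27.GN.NZ

open Finset Filter Topology
open Pool.Agent.N782.GN
open Pool.Agent.H304R3.HK (UH bb lg_bb Rep rep_spec tc)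
open Pool.Agent.H304R3.HK.G1b (sum_inv)
open Pool.Agent.H82R3.AR (FF_series)
open Pool.Agent.H82R3.AR.TS (PS AA)
open scoped ComplexOrder

section
variable (q : ZI) (hq : q ≠ 0) (g : ZI →* ℂ) (hg : ∀ a, ‖g a‖ ≤ 1)
  (hper : ∀ a b : ZI, q ∣ a - b → g a = g b) (hbd : ∀ n : ℕ, ‖bb g n‖ ≤ n.divisors.card)

theorem lser (hb0 : bb g 0 = 0) {s : ℂ} (hs : 1 < s.re) : LSeries (bb g) s =
    (Real.pi : ℂ) ^ s * (Complex.Gamma s)⁻¹ * (PS q hq g hg hper hbd).Λ s := by
  set P := PS q hq g hg hper hbd with hP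
  have h1 : P.Λ s = mellin (Pool.Agent.H82R3.AR.TH (bb g)) s := by
    have h2 := P.hasMellin (s := s) (by simpa [hP, PS] using hs)
    have h3 := h2.2
    rw [← h3]
    congr 1
    funext x
    simp [hP, PS]
  rw [h1]
  have h2 := FF_series (bb g) hb0 hbd s hs
  have h3 : HasSum (fun n => LSeries.term (bb g) s n) (Pool.Agent.H82R3.AR.FF (bb g) s) := by
    refine h2.congr_fun fun n => ?_
    rcases eq_or_ne n 0 with rfl | hn
    · simp [hb0]
    · rw [LSeries.term_of_ne_zero hn, Complex.cpow_neg, div_eq_mul_inv]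
  exact h3.tsum_eq

theorem lam_eq (s : ℂ) : (PS q hq g hg hper hbd).Λ s =
    (PS q hq g hg hper hbd).Λ₀ s - (1 / (1 - s)) * AA q g := by
  unfold WeakFEPair.Λ
  simp [PS]

end

theorem norm_le {q : ℕ} {χ : ZI →* ℂ} (H : Chi q χ) (a : ZI) : ‖χ a‖ ≤ 1 := by
  by_cases h : IsCoprime a ((q : ℕ) : ZI)
  · exact (H.nrm a h).le
  · have : χ a = 0 := by
      by_contra h2
      exact h ((H.supp a).1 h2)
    rw [this]; simp

theorem q_ne {q : ℕ} {χ : ZI →* ℂ} (H : RChi q χ) : q ≠ 1 := by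
  rintro rfl
  obtain ⟨a, -, ha⟩ := H.np
  apply ha
  rw [H.chi.per a 1 (by simp), map_one]

theorem UH_of {q : ℕ} {χ : ZI →* ℂ} (H : RChi q χ) : UH χ where
  h0 := by
    by_contra h
    have h1 := (H.chi.supp 0).1 h
    rw [isCoprime_zero_left] at h1
    have h2 : (((q : ℕ) : ZI)).norm = 1 := (Zsqrtd.norm_eq_one_iff' (by norm_num) _).2 h1
    rw [Zsqrtd.norm_natCast] at h2
    have h3 : q * q = 1 := by exact_mod_cast h2
    exact q_ne H (Nat.eq_one_of_mul_eq_one_right h3)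
  hb := norm_le H.chi
  hi := H.unit

theorem UH_sq {h : ZI →* ℂ} (hh : UH h) : UH (h * h) where
  h0 := by rw [MonoidHom.mul_apply, hh.h0, mul_zero]
  hb := by
    intro a
    rw [MonoidHom.mul_apply, norm_mul]
    exact mul_le_one₀ (hh.hb a) (norm_nonneg _) (hh.hb a)
  hi := by rw [MonoidHom.mul_apply, hh.hi, mul_one]

theorem real_val {q : ℕ} {χ : ZI →* ℂ} (H : RChi q χ) (x : ZI) :
    0 ≤ (χ * χ) x + χ x := by
  rw [MonoidHom.mul_apply]
  have h1 : χ x = ((χ x).re : ℂ) := by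
    apply Complex.ext
    · simp
    · rw [H.real x]; simp
  by_cases h : χ x = 0
  · rw [h]; simp
  · have h2 := H.chi.nrm x ((H.chi.supp x).1 h)
    rw [h1, Complex.norm_real, Real.norm_eq_abs] at h2
    rw [h1]
    have h3 : 0 ≤ (χ x).re * (χ x).re + (χ x).re := by
      rcases abs_eq_abs.1 (h2.trans (abs_one).symm) with h3 | h3
      · rw [h3]; norm_num
      · rw [h3]; norm_num
    exact_mod_cast h3

theorem AA_zero {q : ℕ} (hq0 : ((q : ℕ) : ZI) ≠ 0) {χ : ZI →* ℂ} (H : RChi q χ) :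
    AA ((q : ℕ) : ZI) χ = 0 := by
  obtain ⟨a, ha, hne⟩ := H.np
  have h1 := sum_inv (rep_spec ((q : ℕ) : ZI) hq0) (fun c => χ c) H.chi.per a ha
  simp only [map_mul] at h1
  rw [← Finset.mul_sum] at h1
  have h2 : (χ a - 1) * ∑ c ∈ Rep ((q : ℕ) : ZI), χ c = 0 := by linear_combination h1
  unfold AA
  rcases mul_eq_zero.1 h2 with h3 | h3
  · exact absurd (by linear_combination h3) hne
  · rw [h3, zero_div]

/-- GN/NZ -/
theorem nz_one : S_NZ := by
  intro q χ LL hq H hL h10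
  have U := UH_of H
  obtain ⟨χ2, hχ2⟩ : ∃ f : ZI →* ℂ, f = χ * χ := ⟨_, rfl⟩
  have U2 : UH χ2 := by rw [hχ2]; exact UH_sq U
  have hq0 : ((q : ℕ) : ZI) ≠ 0 := by
    have : q ≠ 0 := by omega
    exact_mod_cast this
  have hper2 : ∀ a b : ZI, ((q : ℕ) : ZI) ∣ a - b → χ2 a = χ2 b := by
    intro a b h
    rw [hχ2, MonoidHom.mul_apply, MonoidHom.mul_apply, H.chi.per a b h]
  set P1 := PS ((q : ℕ) : ZI) hq0 χ U.hb H.chi.per (lg_bb χ U).bd with hP1
  set P0 := PS ((q : ℕ) : ZI) hq0 χ2 U2.hb hper2 (lg_bb _ U2).bd with hP0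
  set A := AA ((q : ℕ) : ZI) χ2 with hA
  have l1 : ∀ s : ℂ, 1 < s.re → LSeries (bb χ) s =
      (Real.pi : ℂ) ^ s * (Complex.Gamma s)⁻¹ * P1.Λ₀ s := by
    intro s hs
    rw [lser ((q : ℕ) : ZI) hq0 χ U.hb H.chi.per (lg_bb χ U).bd (lg_bb χ U).b0 hs, lam_eq,
      AA_zero hq0 H, mul_zero, sub_zero]
  have l0 : ∀ s : ℂ, 1 < s.re → LSeries (bb χ2) s =
      (Real.pi : ℂ) ^ s * (Complex.Gamma s)⁻¹ * (P0.Λ₀ s - (1 / (1 - s)) * A) := by
    intro s hs
    rw [lser ((q : ℕ) : ZI) hq0 χ2 U2.hb hper2 (lg_bb _ U2).bd (lg_bb _ U2).b0 hs, lam_eq]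
  have dG : Differentiable ℂ (fun s : ℂ => (Complex.Gamma s)⁻¹) :=
    Complex.differentiable_one_div_Gamma
  have dp : Differentiable ℂ (fun s : ℂ => (Real.pi : ℂ) ^ s) := fun s =>
    DifferentiableAt.const_cpow (by fun_prop) (Or.inl (by exact_mod_cast Real.pi_ne_zero))
  have d1 : Differentiable ℂ P1.Λ₀ := P1.differentiable_Λ₀
  have d0 : Differentiable ℂ P0.Λ₀ := P0.differentiable_Λ₀
  -- the value at `1`
  have hM : P1.Λ₀ 1 = 0 := by
    have hne : (𝓝[{s : ℂ | 1 < s.re}] 1).NeBot := by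
      rw [← mem_closure_iff_nhdsWithin_neBot, Complex.closure_setOfPred_lt_re]
      simp
    have t1 : Tendsto LL (𝓝[{s : ℂ | 1 < s.re}] 1) (𝓝 (LL 1)) := by
      have hop : IsOpen {s : ℂ | 9 / 10 < s.re} := isOpen_lt continuous_const Complex.continuous_re
      have := hL.diff.differentiableAt (hop.mem_nhds (by norm_num : (1 : ℂ) ∈ {s : ℂ | 9 / 10 < s.re}))
      exact this.continuousAt.tendsto.mono_left nhdsWithin_le_nhds
    have t2 : Tendsto LL (𝓝[{s : ℂ | 1 < s.re}] 1)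
        (𝓝 ((Real.pi : ℂ) ^ (1 : ℂ) * (Complex.Gamma 1)⁻¹ * P1.Λ₀ 1)) := by
      have t3 : Tendsto (fun s : ℂ => (Real.pi : ℂ) ^ s * (Complex.Gamma s)⁻¹ * P1.Λ₀ s)
          (𝓝[{s : ℂ | 1 < s.re}] 1)
          (𝓝 ((Real.pi : ℂ) ^ (1 : ℂ) * (Complex.Gamma 1)⁻¹ * P1.Λ₀ 1)) :=
        ((((dp.mul dG).mul d1) 1).continuousAt.tendsto).mono_left nhdsWithin_le_nhds
      refine t3.congr' ?_
      filter_upwards [self_mem_nhdsWithin] with s hs
      have hs' : 1 < s.re := hs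
      rw [hL.eq s hs', l1 s hs']
    have h1 := tendsto_nhds_unique t1 t2
    rw [h10, Complex.cpow_one, Complex.Gamma_one, inv_one, mul_one] at h1
    rcases mul_eq_zero.1 h1.symm with h2 | h2
    · exact absurd h2 (by exact_mod_cast Real.pi_ne_zero)
    · exact h2
  -- the entire function
  set F : ℂ → ℂ := fun s => ((Real.pi : ℂ) ^ s * (Complex.Gamma s)⁻¹) *
    ((Real.pi : ℂ) ^ s * (Complex.Gamma s)⁻¹) * (P0.Λ₀ s * P1.Λ₀ s + A * dslope P1.Λ₀ 1 s) with hF
  have dsl : Differentiable ℂ (dslope P1.Λ₀ 1) := by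
    rw [← differentiableOn_univ, Complex.differentiableOn_dslope (Filter.univ_mem),
      differentiableOn_univ]
    exact d1
  have dF : Differentiable ℂ F :=
    ((dp.mul dG).mul (dp.mul dG)).mul ((d0.mul d1).add (dsl.const_mul A))
  have hF0 : F 0 = 0 := by
    simp only [hF]
    rw [Complex.Gamma_zero]
    simp
  set a : ℕ → ℂ := LSeries.convolution (bb χ2) (bb χ) with ha
  have ha0 : 0 ≤ a := by
    intro n
    rw [ha, conv_eq]
    exact coef_nonneg U2 U (by rw [hχ2]; exact real_val H) n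
  have ha1 : 0 < a 1 := by
    rw [ha, conv_eq, coef_one U2 U]
    exact zero_lt_one
  have hsum : ∀ (h : ZI →* ℂ), UH h → ∀ s : ℂ, 1 < s.re → LSeriesSummable (bb h) s := by
    intro h hh s hs
    have h1 : LSeriesSummable 1 (s.re : ℂ) := LSeriesSummable_one_iff.mpr (by simpa using hs)
    have h2 := h1.convolution h1
    refine Summable.of_norm_bounded h2.norm fun n => ?_
    rcases eq_or_ne n 0 with rfl | hn
    · simp
    rw [LSeries.norm_term_eq, LSeries.norm_term_eq, if_neg hn, if_neg hn, Complex.ofReal_re]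
    apply div_le_div_of_nonneg_right _ (by positivity)
    have h4 : ‖(LSeries.convolution (1 : ℕ → ℂ) (1 : ℕ → ℂ)) n‖ = n.divisors.card := by
      rw [LSeries.convolution_def]
      simp only [Pi.one_apply, mul_one, Finset.sum_const, nsmul_eq_mul]
      rw [Complex.norm_natCast, ← Nat.map_div_right_divisors, Finset.card_map]
    rw [h4]
    exact (lg_bb h hh).bd n
  have hx : LSeries.abscissaOfAbsConv a ≤ ((1 : ℝ) : EReal) := by
    apply LSeries.abscissaOfAbsConv_le_of_forall_lt_LSeriesSummable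
    intro y hy
    exact (hsum _ U2 _ (by simpa using hy)).convolution (hsum _ U _ (by simpa using hy))
  have heq : Set.EqOn F (LSeries a) {s | (1 : ℝ) < s.re} := by
    intro s hs
    have hs' : 1 < s.re := hs
    have hs1 : s - 1 ≠ 0 := by
      intro h
      have : s = 1 := sub_eq_zero.1 h
      rw [this] at hs'
      simp at hs'
    have hs1' : (1 : ℂ) - s ≠ 0 := by
      intro h
      apply hs1
      linear_combination -h
    rw [ha, LSeries_convolution' (hsum _ U2 s hs') (hsum _ U s hs'), l0 s hs', l1 s hs']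
    simp only [hF]
    have hne : s ≠ 1 := sub_ne_zero.1 hs1
    rw [dslope_of_ne _ hne, slope_def_field, hM, sub_zero]
    have e : A * (P1.Λ₀ s / (s - 1)) = -(1 / (1 - s)) * A * P1.Λ₀ s := by
      field_simp
      ring
    rw [e]
    ring
  have hpos := LSeries.positive_of_differentiable_of_eqOn ha0 ha1 dF hx heq 0
  rw [Complex.ofReal_zero, hF0] at hpos
  exact lt_irrefl _ hpos

end Pool.Agent.N27.GN.NZ
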