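import Pool.Agent.N782.GN.StmV
import Pool.Agent.H304R3.HK.LgB

/-!
# GN/NZ, part A: the coefficients of `L(s, χ²) L(s, χ)` are nonnegative
-/

set_option autoImplicit false

namespace Pool.Agent.N27.GN.NZ

open Finset
open Pool.Agent.N782.GN
open Pool.Agent.H304R3.HK (UH bb CS lg_bb ccf ts ee ts_eq bb_zero bb_two_odd M3.In M3.p_cases
  M3.c_pow M3.b_two M3.b_odd)
open Pool.Agent.H304R2.EC (PS Sh Sh_inert Sh_split PS_split)
open scoped ComplexOrder

theorem In_of {h : ZI →* ℂ} (hh : UH h) : Pool.Agent.H304R3.HK.M3.In h :=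
  ⟨bb_zero h hh.h0, fun k m hm => bb_two_odd h hh.hi k m hm⟩

/-- explicit form of the power sums -/
theorem ccf_form (p : ℕ) (hp : p.Prime) (k : ℕ) : ∃ (α β : ℝ) (x y : ZI), 0 ≤ α ∧ 0 ≤ β ∧
    ∀ h : ZI →* ℂ, UH h → ccf h (p ^ (k + 1)) = α * h x + β * h y := by
  rcases Pool.Agent.H304R3.HK.M3.p_cases hp with rfl | ⟨ho, h3⟩ | ⟨ho, h1⟩
  · refine ⟨1, 0, ⟨1, 1⟩ ^ (k + 1), 1, zero_le_one, le_rfl, fun h hh => ?_⟩
    have e1 : bb h 2 = h ⟨1, 1⟩ := by
      have := Pool.Agent.H304R3.HK.M3.b_two (In_of hh) 1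
      rwa [pow_one, pow_one] at this
    have e2 : ee h 2 = 0 := by
      unfold ee
      rw [if_pos rfl]
    rw [Pool.Agent.H304R3.HK.M3.c_pow 2 hp k, e1, e2]
    have e3 := ts_eq (h ⟨1, 1⟩) 0 (k + 1)
    rw [add_zero, mul_zero] at e3
    rw [e3, map_pow]
    simp
  · have hp2 : p ≠ 2 := by rintro rfl; norm_num at ho
    have key : ∀ h : ZI →* ℂ, UH h → ∃ w : ℂ, w ^ 2 = h (p : ZI) ∧
        ccf h (p ^ (k + 1)) = w ^ (k + 1) + (-w) ^ (k + 1) := by
      intro h hh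
      obtain ⟨w, hw⟩ := IsAlgClosed.exists_pow_nat_eq (h (p : GaussianInt)) (n := 2) (by norm_num)
      refine ⟨w, hw, ?_⟩
      have e1 : bb h p = w + -w := by
        rw [Pool.Agent.H304R3.HK.M3.b_odd (In_of hh) p ho, (Sh_inert h p hp h3 0).1]
        ring
      have e2 : ee h p = w * -w := by
        unfold ee
        rw [if_neg hp2, if_pos h3, ← hw]
        ring
      rw [Pool.Agent.H304R3.HK.M3.c_pow p hp k, e1, e2, ts_eq]
    rcases Nat.even_or_odd' (k + 1) with ⟨m, hm | hm⟩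
    · refine ⟨2, 0, (p : ZI) ^ m, 1, by norm_num, le_rfl, fun h hh => ?_⟩
      obtain ⟨w, hw, hc⟩ := key h hh
      rw [hc, map_pow, ← hw, hm, Even.neg_pow ⟨m, by ring⟩, pow_mul]
      push_cast
      ring
    · refine ⟨0, 0, 1, 1, le_rfl, le_rfl, fun h hh => ?_⟩
      obtain ⟨w, hw, hc⟩ := key h hh
      rw [hc, hm, Odd.neg_pow ⟨m, by ring⟩]
      simp
  · have hp2 : p ≠ 2 := by rintro rfl; norm_num at ho
    obtain ⟨a, b, hb0, hb, hab, hn, hPS⟩ := PS_split p hp h1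
    refine ⟨1, 1, (⟨a, b⟩ : ZI) ^ (k + 1), (⟨a, -b⟩ : ZI) ^ (k + 1), zero_le_one, zero_le_one,
      fun h hh => ?_⟩
    have e1 : bb h p = h ⟨a, b⟩ + h ⟨a, -b⟩ := by
      rw [Pool.Agent.H304R3.HK.M3.b_odd (In_of hh) p ho]
      unfold Sh
      rw [hPS, Finset.sum_pair]
      intro heq
      rw [Prod.mk.injEq] at heq
      omega
    have e2 : ee h p = h ⟨a, b⟩ * h ⟨a, -b⟩ := by
      unfold ee
      rw [if_neg hp2, if_neg (by omega), ← map_mul]
      congr 1
      ext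
      · rw [Zsqrtd.re_mul]
        simp only [Zsqrtd.re_natCast]
        rw [← hn]
        ring
      · rw [Zsqrtd.im_mul]
        simp only [Zsqrtd.im_natCast]
        ring
    rw [Pool.Agent.H304R3.HK.M3.c_pow p hp k, e1, e2, ts_eq, map_pow, map_pow]
    push_cast
    ring

/-- the sum of two functions with nonnegative power sums -/
theorem ccf_nonneg {h1 h2 : ZI →* ℂ} (H1 : UH h1) (H2 : UH h2) (H : ∀ x, 0 ≤ h1 x + h2 x)
    (n : ℕ) (hn : IsPrimePow n) : 0 ≤ ccf h1 n + ccf h2 n := by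
  obtain ⟨p, k, hp, hk, rfl⟩ := hn
  obtain ⟨α, β, x, y, hα, hβ, hf⟩ := ccf_form p hp.nat_prime (k - 1)
  rw [show k - 1 + 1 = k by omega] at hf
  rw [hf h1 H1, hf h2 H2]
  have e : (α : ℂ) * h1 x + β * h1 y + (α * h2 x + β * h2 y) =
      α * (h1 x + h2 x) + β * (h1 y + h2 y) := by ring
  rw [e]
  have hα' : (0 : ℂ) ≤ α := by exact_mod_cast hα
  have hβ' : (0 : ℂ) ≤ β := by exact_mod_cast hβ
  exact add_nonneg (mul_nonneg hα' (H x)) (mul_nonneg hβ' (H y))

/-- as an arithmetic function -/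
noncomputable def AF (f : ℕ → ℂ) : ArithmeticFunction ℂ := ⟨fun n => if n = 0 then 0 else f n, by simp⟩

theorem AF_apply (f : ℕ → ℂ) {n : ℕ} (hn : n ≠ 0) : AF f n = f n := by
  change (if n = 0 then 0 else f n) = f n
  rw [if_neg hn]

/-- the logarithmic derivative of a product -/
theorem log_mul (F G : ArithmeticFunction ℂ) (n : ℕ) :
    (F * G) n * (Real.log n : ℂ) = ∑ p ∈ n.divisorsAntidiagonal,
      ((F p.1 * (Real.log p.1 : ℂ)) * G p.2 + F p.1 * (G p.2 * (Real.log p.2 : ℂ))) := by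
  rw [ArithmeticFunction.mul_apply, Finset.sum_mul]
  refine Finset.sum_congr rfl fun p hp => ?_
  have h1 := (Nat.mem_divisorsAntidiagonal.1 hp)
  have h2 : p.1 ≠ 0 := by rintro h; rw [h, zero_mul] at h1; exact h1.2 h1.1.symm
  have h3 : p.2 ≠ 0 := by rintro h; rw [h, mul_zero] at h1; exact h1.2 h1.1.symm
  have h4 : Real.log n = Real.log p.1 + Real.log p.2 := by
    rw [← h1.1]
    push_cast
    rw [Real.log_mul (by exact_mod_cast h2) (by exact_mod_cast h3)]
  rw [h4]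
  push_cast
  ring

/-- `Λ c` -/
noncomputable def GG (h : ZI →* ℂ) : ArithmeticFunction ℂ :=
  AF (fun n => (ArithmeticFunction.vonMangoldt n : ℂ) * ccf h n)

theorem lg_AF {h : ZI →* ℂ} (hh : UH h) (n : ℕ) :
    AF (bb h) n * (Real.log n : ℂ) = (GG h * AF (bb h)) n := by
  rcases eq_or_ne n 0 with rfl | hn
  · simp
  rw [AF_apply _ hn, (lg_bb h hh).lg n hn, ArithmeticFunction.mul_apply,
    Nat.sum_divisorsAntidiagonal (fun i j => GG h i * AF (bb h) j)]
  refine Finset.sum_congr rfl fun d hd => ?_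
  have h1 := Nat.mem_divisors.1 hd
  have h2 : d ≠ 0 := by rintro rfl; exact hn (Nat.eq_zero_of_zero_dvd h1.1)
  have h3 : n / d ≠ 0 := by
    have := Nat.div_pos (Nat.le_of_dvd (Nat.pos_of_ne_zero hn) h1.1) (Nat.pos_of_ne_zero h2)
    omega
  unfold GG
  rw [AF_apply _ h2, AF_apply _ h3]

theorem log_prod {h1 h2 : ZI →* ℂ} (H1 : UH h1) (H2 : UH h2) (n : ℕ) :
    (AF (bb h1) * AF (bb h2)) n * (Real.log n : ℂ) =
      ((GG h1 + GG h2) * (AF (bb h1) * AF (bb h2))) n := by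
  rw [log_mul]
  have e1 : ∀ p : ℕ × ℕ, (AF (bb h1) p.1 * (Real.log p.1 : ℂ)) * AF (bb h2) p.2 +
      AF (bb h1) p.1 * (AF (bb h2) p.2 * (Real.log p.2 : ℂ)) =
      (GG h1 * AF (bb h1)) p.1 * AF (bb h2) p.2 + AF (bb h1) p.1 * (GG h2 * AF (bb h2)) p.2 := by
    intro p
    rw [lg_AF H1, lg_AF H2]
  simp only [e1]
  rw [Finset.sum_add_distrib, ← ArithmeticFunction.mul_apply, ← ArithmeticFunction.mul_apply]
  have e2 : (GG h1 + GG h2) * (AF (bb h1) * AF (bb h2)) =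
      (GG h1 * AF (bb h1)) * AF (bb h2) + AF (bb h1) * (GG h2 * AF (bb h2)) := by ring
  rw [e2, ArithmeticFunction.add_apply]

theorem GG_nonneg {h1 h2 : ZI →* ℂ} (H1 : UH h1) (H2 : UH h2) (H : ∀ x, 0 ≤ h1 x + h2 x)
    (n : ℕ) : 0 ≤ (GG h1 + GG h2) n := by
  rw [ArithmeticFunction.add_apply]
  rcases eq_or_ne n 0 with rfl | hn
  · simp
  unfold GG
  rw [AF_apply _ hn, AF_apply _ hn, ← mul_add]
  by_cases hp : IsPrimePow n
  · apply mul_nonneg
    · exact_mod_cast ArithmeticFunction.vonMangoldt_nonneg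
    · exact ccf_nonneg H1 H2 H n hp
  · rw [ArithmeticFunction.vonMangoldt_eq_zero_iff.2 hp]
    simp

theorem GG_one (h : ZI →* ℂ) : GG h 1 = 0 := by
  unfold GG
  rw [AF_apply _ one_ne_zero]
  simp

theorem coef_one {h1 h2 : ZI →* ℂ} (H1 : UH h1) (H2 : UH h2) :
    (AF (bb h1) * AF (bb h2)) 1 = 1 := by
  rw [ArithmeticFunction.mul_apply, Nat.divisorsAntidiagonal_one, Finset.sum_singleton,
    AF_apply _ one_ne_zero, AF_apply _ one_ne_zero, (lg_bb h1 H1).b1, (lg_bb h2 H2).b1, one_mul]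

theorem coef_nonneg {h1 h2 : ZI →* ℂ} (H1 : UH h1) (H2 : UH h2) (H : ∀ x, 0 ≤ h1 x + h2 x)
    (n : ℕ) : 0 ≤ (AF (bb h1) * AF (bb h2)) n := by
  induction n using Nat.strong_induction_on with
  | _ n ih =>
    rcases Nat.lt_or_ge n 2 with h | h
    · interval_cases n
      · simp
      · rw [coef_one H1 H2]; exact zero_le_one
    · have hl : 0 < Real.log n := Real.log_pos (by exact_mod_cast h)
      have h3 := log_prod H1 H2 n
      have h4 : 0 ≤ ((GG h1 + GG h2) * (AF (bb h1) * AF (bb h2))) n := by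
        rw [ArithmeticFunction.mul_apply]
        apply Finset.sum_nonneg
        intro p hp
        have h5 := Nat.mem_divisorsAntidiagonal.1 hp
        rcases eq_or_ne p.1 1 with h6 | h6
        · rw [h6, ArithmeticFunction.add_apply, GG_one, GG_one]
          simp
        · apply mul_nonneg (GG_nonneg H1 H2 H _)
          apply ih
          have h7 : p.1 ≠ 0 := by rintro h; rw [h, zero_mul] at h5; exact h5.2 h5.1.symm
          have h8 : p.2 ≠ 0 := by rintro h; rw [h, mul_zero] at h5; exact h5.2 h5.1.symm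
          rw [← h5.1]
          have h9 : 2 ≤ p.1 := by omega
          have h10 : 1 ≤ p.2 := by omega
          nlinarith
      rw [← h3] at h4
      have h5 : (AF (bb h1) * AF (bb h2)) n =
          ((AF (bb h1) * AF (bb h2)) n * (Real.log n : ℂ)) * (((Real.log n)⁻¹ : ℝ) : ℂ) := by
        rw [mul_assoc, ← Complex.ofReal_mul, mul_inv_cancel₀ hl.ne', Complex.ofReal_one, mul_one]
      rw [h5]
      apply mul_nonneg h4
      have : (0 : ℝ) ≤ (Real.log n)⁻¹ := by positivity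
      exact_mod_cast this

theorem conv_eq (f g : ℕ → ℂ) (n : ℕ) : (LSeries.convolution f g) n = (AF f * AF g) n := by
  rw [LSeries.convolution_def, ArithmeticFunction.mul_apply]
  refine Finset.sum_congr rfl fun p hp => ?_
  have h5 := Nat.mem_divisorsAntidiagonal.1 hp
  have h7 : p.1 ≠ 0 := by rintro h; rw [h, zero_mul] at h5; exact h5.2 h5.1.symm
  have h8 : p.2 ≠ 0 := by rintro h; rw [h, mul_zero] at h5; exact h5.2 h5.1.symm
  rw [AF_apply _ h7, AF_apply _ h8]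

end Pool.Agent.N27.GN.NZ
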