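import Pool.Agent.N27.GN.PerB

/-!
# GN/PER: Perron's formula for the Moebius function of `ℤ[i]`
-/

set_option autoImplicit false

namespace Pool.Agent.N27.GN

open Finset
open Pool.Agent.N782.GN
open Pool.Agent.H304R3.HK (UH bb)
open scoped Real

lemma RS_fin {f : ℕ → ℂ} {F : ℕ} {v : ℝ} (hF : ∀ n : ℕ, F < n → v ≤ Real.log n) :
    RS f v = ∑ n ∈ Icc 1 F, f n * ((max (v - Real.log n) 0 : ℝ) : ℂ) := by
  unfold RS
  rw [tsum_eq_sum (s := Icc 1 F)]
  · refine Finset.sum_congr rfl fun n hn => ?_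
    rw [LSeries.term_of_ne_zero (by have := (Finset.mem_Icc.1 hn).1; omega), Complex.cpow_zero,
      div_one]
  · intro n hn
    rcases Nat.eq_zero_or_pos n with rfl | h0
    · simp
    · have h3 : F < n := by
        by_contra h
        exact hn (Finset.mem_Icc.2 ⟨h0, not_lt.1 h⟩)
      have h4 := hF n h3
      rw [max_eq_right (by linarith)]
      simp

theorem unsmooth {f : ℕ → ℂ} (hf : ∀ n : ℕ, n ≠ 0 → ‖f n‖ ≤ n.divisors.card) {x δ : ℝ}
    (hx : 1 ≤ x) (h0 : 0 < δ) (h1 : δ ≤ 1) :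
    ‖∑ n ∈ Icc 1 ⌊x⌋₊, f n‖ ≤ (‖RS f (Real.log x + δ)‖ + ‖RS f (Real.log x)‖) / δ +
      ∑ n ∈ Ioc ⌊x⌋₊ ⌊x * Real.exp δ⌋₊, (n.divisors.card : ℝ) := by
  have hx0 : 0 < x := by linarith
  set v := Real.log x with hv
  set N := ⌊x⌋₊ with hN
  set F := ⌊x * Real.exp δ⌋₊ with hF
  have hNF : N ≤ F := by
    apply Nat.floor_le_floor
    have := Real.add_one_le_exp δ
    nlinarith
  set φ : ℕ → ℝ := fun n => max (v + δ - Real.log n) 0 - max (v - Real.log n) 0 with hφ
  have hφ1 : ∀ n ∈ Icc 1 N, φ n = δ := by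
    intro n hn
    rw [Finset.mem_Icc] at hn
    have hn0 : (0 : ℝ) < n := by exact_mod_cast hn.1
    have h2 : (n : ℝ) ≤ x := (Nat.le_floor_iff hx0.le).1 hn.2
    have h3 : Real.log n ≤ v := Real.log_le_log hn0 h2
    simp only [hφ]
    rw [max_eq_left (by linarith), max_eq_left (by linarith)]
    ring
  have hlog : ∀ n : ℕ, N < n → v ≤ Real.log n := by
    intro n hn
    exact Real.log_le_log hx0 ((Nat.floor_lt hx0.le).1 hn).le
  have hφ2 : ∀ n ∈ Ioc N F, |φ n| ≤ δ := by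
    intro n hn
    rw [Finset.mem_Ioc] at hn
    have h2 := hlog n hn.1
    simp only [hφ]
    rw [max_eq_right (by linarith : v - Real.log n ≤ 0), sub_zero,
      abs_of_nonneg (le_max_right _ _)]
    exact max_le (by linarith) h0.le
  have hlog2 : ∀ n : ℕ, F < n → v + δ ≤ Real.log n := by
    intro n hn
    have h4 : x * Real.exp δ < n := (Nat.floor_lt (by positivity)).1 hn
    have h5 := Real.log_le_log (by positivity) h4.le
    rwa [Real.log_mul hx0.ne' (Real.exp_pos _).ne', Real.log_exp] at h5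
  have hdiff : RS f (v + δ) - RS f v = ∑ n ∈ Icc 1 F, f n * ((φ n : ℝ) : ℂ) := by
    rw [RS_fin hlog2, RS_fin (F := F) (fun n hn => hlog n (by omega)),
      ← Finset.sum_sub_distrib]
    refine Finset.sum_congr rfl fun n _ => ?_
    simp only [hφ]
    push_cast
    ring
  have hsplit : Icc 1 F = Icc 1 N ∪ Ioc N F := by
    ext n
    simp only [Finset.mem_union, Finset.mem_Icc, Finset.mem_Ioc]
    omega
  have hdis : Disjoint (Icc 1 N) (Ioc N F) := by
    rw [Finset.disjoint_left]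
    intro n hn
    simp only [Finset.mem_Icc, Finset.mem_Ioc] at hn ⊢
    omega
  rw [hsplit, Finset.sum_union hdis] at hdiff
  have hmain : ∑ n ∈ Icc 1 N, f n * ((φ n : ℝ) : ℂ) = (δ : ℂ) * ∑ n ∈ Icc 1 N, f n := by
    rw [Finset.mul_sum]
    refine Finset.sum_congr rfl fun n hn => ?_
    rw [hφ1 n hn, mul_comm]
  rw [hmain] at hdiff
  set rem := ∑ n ∈ Ioc N F, f n * ((φ n : ℝ) : ℂ) with hrem
  have hremb : ‖rem‖ ≤ δ * ∑ n ∈ Ioc N F, (n.divisors.card : ℝ) := by
    rw [Finset.mul_sum]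
    refine norm_sum_le_of_le _ fun n hn => ?_
    rw [norm_mul, Complex.norm_real, Real.norm_eq_abs, mul_comm]
    have h2 := hf n (by rw [Finset.mem_Ioc] at hn; omega)
    exact mul_le_mul (hφ2 n hn) h2 (norm_nonneg _) h0.le
  have hS : (δ : ℂ) * ∑ n ∈ Icc 1 N, f n = RS f (v + δ) - RS f v - rem := by
    rw [hdiff]
    ring
  have hS2 : δ * ‖∑ n ∈ Icc 1 N, f n‖ ≤
      ‖RS f (v + δ)‖ + ‖RS f v‖ + δ * ∑ n ∈ Ioc N F, (n.divisors.card : ℝ) := by
    have h2 : ‖(δ : ℂ) * ∑ n ∈ Icc 1 N, f n‖ = δ * ‖∑ n ∈ Icc 1 N, f n‖ := by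
      rw [norm_mul, Complex.norm_real, Real.norm_of_nonneg h0.le]
    rw [← h2, hS]
    exact (norm_sub_le _ _).trans (add_le_add (norm_sub_le _ _) hremb)
  have hfin : ‖∑ n ∈ Icc 1 N, f n‖ ≤
      (‖RS f (v + δ)‖ + ‖RS f v‖ + δ * ∑ n ∈ Ioc N F, (n.divisors.card : ℝ)) / δ := by
    rw [le_div_iff₀ h0, mul_comm]
    exact hS2
  refine hfin.trans (le_of_eq ?_)
  rw [add_div, mul_div_cancel_left₀ _ h0.ne']

theorem exp_le_three {δ : ℝ} (h1 : δ ≤ 1) : Real.exp δ ≤ 3 := by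
  have := Real.exp_le_exp.2 h1
  linarith [Real.exp_one_lt_d9]

theorem rem_le {x δ : ℝ} (hx : 3 ≤ x) (h0 : 0 < δ) (h1 : δ ≤ 1) :
    ∑ n ∈ Ioc ⌊x⌋₊ ⌊x * Real.exp δ⌋₊, (n.divisors.card : ℝ) ≤
      12 * (δ * x * Real.log x) + 10 * (Real.sqrt x * Real.log x) := by
  have hx0 : 0 < x := by linarith
  have hNF : ⌊x⌋₊ ≤ ⌊x * Real.exp δ⌋₊ := by
    apply Nat.floor_le_floor
    have := Real.add_one_le_exp δ
    nlinarith
  have h2 := sum_div_le hNF
  set F := ⌊x * Real.exp δ⌋₊ with hF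
  have h3 : (F : ℝ) ≤ x * Real.exp δ := Nat.floor_le (by positivity)
  have h4 : x - 1 < (⌊x⌋₊ : ℝ) := Nat.sub_one_lt_floor x
  have h5 : Real.exp δ - 1 ≤ 2 * δ := by
    have h4 := Real.abs_exp_sub_one_le (x := δ) (by rw [abs_of_pos h0]; exact h1)
    rw [abs_of_pos h0] at h4
    exact (le_abs_self _).trans h4
  have h6 : (F : ℝ) - ⌊x⌋₊ ≤ 2 * δ * x + 1 := by nlinarith
  have h6' : (0 : ℝ) ≤ (F : ℝ) - ⌊x⌋₊ := by
    have : ((⌊x⌋₊ : ℕ) : ℝ) ≤ F := by exact_mod_cast hNF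
    linarith
  have h7 : (F : ℝ) ≤ 3 * x := by
    have := exp_le_three h1
    nlinarith
  have hlx : 1 ≤ Real.log x := by
    rw [Real.le_log_iff_exp_le hx0]
    linarith [Real.exp_one_lt_d9]
  have hs1 : (Nat.sqrt F : ℝ) ≤ 2 * Real.sqrt x := by
    have g1 : (Nat.sqrt F : ℝ) ^ 2 ≤ F := by exact_mod_cast Nat.sqrt_le' F
    have g2 : (Nat.sqrt F : ℝ) ^ 2 ≤ (2 * Real.sqrt x) ^ 2 := by
      rw [mul_pow, Real.sq_sqrt hx0.le]
      linarith
    exact le_of_sq_le_sq g2 (by positivity) |> fun h => h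
  have hs2 : Real.log (Nat.sqrt F) ≤ 2 * Real.log x := by
    rcases Nat.eq_zero_or_pos (Nat.sqrt F) with h | h
    · rw [h]; simp; linarith
    · have g1 : (Nat.sqrt F : ℝ) ≤ F := by exact_mod_cast Nat.sqrt_le_self F
      have g2 : (Nat.sqrt F : ℝ) ≤ x ^ 2 := by nlinarith
      have g3 := Real.log_le_log (by exact_mod_cast h) g2
      rwa [Real.log_pow, Nat.cast_ofNat] at g3
  have hsx : 1 ≤ Real.sqrt x := by
    rw [Real.one_le_sqrt]; linarith
  have g1 : ((F : ℝ) - ⌊x⌋₊) * (1 + Real.log (Nat.sqrt F)) ≤ (2 * δ * x + 1) * (3 * Real.log x) := by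
    have g3 : 1 + Real.log (Nat.sqrt F) ≤ 3 * Real.log x := by linarith
    have g4 : 0 ≤ 1 + Real.log (Nat.sqrt F) := by
      have := Real.log_natCast_nonneg (Nat.sqrt F)
      linarith
    exact mul_le_mul h6 g3 g4 (by positivity)
  have g5 : Real.sqrt x ≤ Real.sqrt x * Real.log x := by nlinarith
  have g6 : Real.log x ≤ Real.sqrt x * Real.log x := by nlinarith
  calc _ ≤ _ := h2
    _ ≤ 2 * ((2 * δ * x + 1) * (3 * Real.log x) + 2 * Real.sqrt x) := by
        linarith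
    _ = 12 * (δ * x * Real.log x) + 6 * Real.log x + 4 * Real.sqrt x := by ring
    _ ≤ _ := by linarith

/-- GN/PER -/
theorem per (hm : S_MUB) : S_PER := by
  refine ⟨1152, by norm_num, ?_⟩
  intro h hh T w R x δ L hT hw hw1 hR hx hδ hδ1 hL hLf hLR
  have hx0 : 0 < x := by linarith
  have hf : ∀ n : ℕ, n ≠ 0 → ‖bm h n‖ ≤ n.divisors.card := fun n hn => bm_le hh n hn
  have hlx0 : 0 < Real.log x := Real.log_pos (by linarith)
  have hT0 : 0 < T := by linarith
  have hR0 : 0 < R := by linarith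
  have hxw : 0 < x ^ (-w) := Real.rpow_pos_of_pos hx0 _
  have hsx : 1 ≤ Real.sqrt x := by
    rw [Real.one_le_sqrt]; linarith
  rcases lt_or_ge x 3 with hx3 | hx3
  · have h2 : ⌊x⌋₊ ≤ 2 := by
      have : ⌊x⌋₊ < 3 := (Nat.floor_lt hx0.le).2 (by exact_mod_cast hx3)
      omega
    have h3 : ‖∑ n ∈ Icc 1 ⌊x⌋₊, bm h n‖ ≤ 3 := by
      calc ‖∑ n ∈ Icc 1 ⌊x⌋₊, bm h n‖ ≤ ∑ n ∈ Icc 1 ⌊x⌋₊, (n.divisors.card : ℝ) :=
            norm_sum_le_of_le _ fun n hn => hf n (by rw [Finset.mem_Icc] at hn; omega)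
        _ ≤ ∑ n ∈ Icc 1 2, (n.divisors.card : ℝ) := by
            apply Finset.sum_le_sum_of_subset_of_nonneg
            · exact Finset.Icc_subset_Icc_right h2
            · intro n _ _
              positivity
        _ = 3 := by
            rw [show Icc 1 2 = ({1, 2} : Finset ℕ) from by decide]
            rw [Finset.sum_pair (by norm_num), Nat.divisors_one, Nat.Prime.divisors Nat.prime_two]
            norm_num
    have h4 : (1 : ℝ) / 2 ≤ Real.log x := by
      have g1 : Real.log 2 ≤ Real.log x := Real.log_le_log (by norm_num) hx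
      linarith [Real.log_two_gt_d9]
    have h5 : 1 / 2 ≤ Real.sqrt x * Real.log x := by nlinarith
    have h6 : 0 ≤ δ * x * Real.log x := by positivity
    have h7 : 0 ≤ x / δ * (R * x ^ (-w) + ((Real.log x) ^ 2 + R) / T) := by positivity
    linarith
  · have hlx : 1 ≤ Real.log x := by
      rw [Real.le_log_iff_exp_le hx0]
      linarith [Real.exp_one_lt_d9]
    have hLf' : ∀ s : ℂ, 1 < s.re → L s * LSeries (bm h) s = 1 := by
      intro s hs
      rw [hLf s hs]
      exact L_mul hm hh hs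
    have hRS : ∀ v : ℝ, Real.log x ≤ v → v ≤ Real.log x + δ → ‖RS (bm h) v‖ ≤
        576 * (x * (R * x ^ (-w) + ((Real.log x) ^ 2 + R) / T)) := by
      intro v hv1 hv2
      have g1 := RS_bound hf (by linarith : 1 ≤ T) hw hw1 hR (by linarith : 1 ≤ v) hL hLf' hLR
      refine g1.trans ?_
      have g2 : Real.exp v ≤ 3 * x := by
        calc Real.exp v ≤ Real.exp (Real.log x + δ) := Real.exp_le_exp.2 hv2
          _ = x * Real.exp δ := by rw [Real.exp_add, Real.exp_log hx0]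
          _ ≤ 3 * x := by
            have := exp_le_three hδ1
            nlinarith
      have g3 : Real.exp (-(w * v)) ≤ x ^ (-w) := by
        rw [Real.rpow_def_of_pos hx0]
        apply Real.exp_le_exp.2
        nlinarith
      have g4 : v ^ 2 ≤ 4 * (Real.log x) ^ 2 := by nlinarith
      have g5 : R * Real.exp (-(w * v)) + (v ^ 2 + R) / T ≤
          4 * (R * x ^ (-w) + ((Real.log x) ^ 2 + R) / T) := by
        have g6 : R * Real.exp (-(w * v)) ≤ R * x ^ (-w) := mul_le_mul_of_nonneg_left g3 hR0.le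
        have g7 : (v ^ 2 + R) / T ≤ 4 * (((Real.log x) ^ 2 + R) / T) := by
          rw [← mul_div_assoc]
          apply div_le_div_of_nonneg_right _ hT0.le
          linarith
        have g8 : 0 ≤ R * x ^ (-w) := by positivity
        linarith
      calc 48 * Real.exp v * (R * Real.exp (-(w * v)) + (v ^ 2 + R) / T) ≤
          48 * (3 * x) * (4 * (R * x ^ (-w) + ((Real.log x) ^ 2 + R) / T)) := by
            apply mul_le_mul _ g5 (by positivity) (by positivity)
            linarith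
        _ = _ := by ring
    have k1 := unsmooth hf (by linarith : 1 ≤ x) hδ hδ1
    have k2 := rem_le hx3 hδ hδ1
    have k3 := hRS (Real.log x + δ) (by linarith) le_rfl
    have k4 := hRS (Real.log x) le_rfl (by linarith)
    have k5 : (‖RS (bm h) (Real.log x + δ)‖ + ‖RS (bm h) (Real.log x)‖) / δ ≤
        1152 * (x / δ * (R * x ^ (-w) + ((Real.log x) ^ 2 + R) / T)) := by
      rw [div_le_iff₀ hδ]
      have : 1152 * (x / δ * (R * x ^ (-w) + ((Real.log x) ^ 2 + R) / T)) * δ =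
          1152 * (x * (R * x ^ (-w) + ((Real.log x) ^ 2 + R) / T)) := by
        field_simp
      rw [this]
      linarith
    have h6 : 0 ≤ δ * x * Real.log x := by positivity
    have h7 : 0 ≤ Real.sqrt x * Real.log x := by positivity
    linarith

end Pool.Agent.N27.GN
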