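import Pool.Agent.N782.GN.StmT
import Pool.Agent.H304R3.HK.LgB

/-!
# GN/PER, part A: the Dirichlet series of the Moebius function of `ℤ[i]`; divisors in short
intervals
-/

set_option autoImplicit false

namespace Pool.Agent.N27.GN

open Finset
open Pool.Agent.N782.GN
open Pool.Agent.H304R3.HK (UH bb CS lg_bb)
open Pool.Agent.H304R3.HK.M1 (CG mem_CG bb_eq)

/-! ### The bounds of the coefficients -/

open Classical in
/-- the trivial function -/
noncomputable def h0 : ZI →* ℂ where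
  toFun a := if a = 0 then 0 else 1
  map_one' := by simp
  map_mul' := by
    intro a b
    by_cases ha : a = 0
    · simp [ha]
    by_cases hb : b = 0
    · simp [hb]
    simp [ha, hb]

theorem UH_h0 : UH h0 where
  h0 := by simp [h0]
  hb := by
    intro a
    unfold h0
    simp only [MonoidHom.coe_mk, OneHom.coe_mk]
    split_ifs <;> simp
  hi := by
    unfold h0
    simp only [MonoidHom.coe_mk, OneHom.coe_mk]
    rw [if_neg]
    intro h
    have := congrArg Zsqrtd.im h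
    simp at this

theorem CG_ne {n : ℕ} (hn : n ≠ 0) {z : ZI} (hz : z ∈ CG n) : z ≠ 0 := by
  rintro rfl
  rw [mem_CG] at hz
  rw [Zsqrtd.norm_zero] at hz
  exact hn (by exact_mod_cast hz.symm)

theorem CG_card (n : ℕ) (hn : n ≠ 0) : ((CG n).card : ℝ) ≤ 4 * n.divisors.card := by
  have h1 := (lg_bb h0 UH_h0).bd n
  rw [bb_eq] at h1
  have h2 : ∑ z ∈ CG n, h0 z = ((CG n).card : ℂ) := by
    rw [Finset.card_eq_sum_ones]
    push_cast
    refine Finset.sum_congr rfl fun z hz => ?_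
    have := CG_ne hn hz
    simp [h0, this]
  rw [h2, norm_mul, Complex.norm_natCast] at h1
  norm_num at h1
  linarith

theorem bb_le (f : ZI → ℂ) (hf : ∀ z, ‖f z‖ ≤ 1) (n : ℕ) (hn : n ≠ 0) :
    ‖bb f n‖ ≤ n.divisors.card := by
  rw [bb_eq, norm_mul]
  have h1 : ‖∑ z ∈ CG n, f z‖ ≤ (CG n).card := by
    refine (norm_sum_le _ _).trans ?_
    refine (Finset.sum_le_sum fun z _ => hf z).trans ?_
    simp
  have h2 := CG_card n hn
  have h3 : ‖(1 / 4 : ℂ)‖ = 1 / 4 := by norm_num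
  rw [h3]
  linarith

theorem bm_le {h : ZI →* ℂ} (hh : UH h) (n : ℕ) (hn : n ≠ 0) : ‖bm h n‖ ≤ n.divisors.card := by
  refine bb_le _ (fun z => ?_) n hn
  rw [norm_mul, Complex.norm_real]
  have h1 : ‖mu z‖ ≤ 1 := abs_mu_le z
  have h2 := hh.hb z
  calc ‖mu z‖ * ‖h z‖ ≤ 1 * 1 := mul_le_mul h1 h2 (norm_nonneg _) zero_le_one
    _ = 1 := one_mul 1

/-! ### The convolution identity -/

theorem norm_isUnit {z : ZI} : IsUnit z ↔ z.norm = 1 :=
  (Zsqrtd.norm_eq_one_iff' (by norm_num) z).symm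

open Classical in
theorem conv_aux (h : ZI →* ℂ) {n : ℕ} (hn : n ≠ 0) :
    ∑ p ∈ n.divisorsAntidiagonal, (∑ z ∈ CG p.1, h z) * (∑ w ∈ CG p.2, (mu w : ℂ) * h w) =
      ∑ u ∈ CG n, h u * ∑ w ∈ (bl (nz u)).filter (fun w => w ∣ u), (mu w : ℂ) := by
  have e1 : ∀ p : ℕ × ℕ, (∑ z ∈ CG p.1, h z) * (∑ w ∈ CG p.2, (mu w : ℂ) * h w) =
      ∑ q ∈ CG p.1 ×ˢ CG p.2, h q.1 * ((mu q.2 : ℂ) * h q.2) := by
    intro p
    rw [Finset.sum_mul_sum, Finset.sum_product]
  simp only [e1, Finset.mul_sum]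
  rw [Finset.sum_sigma', Finset.sum_sigma']
  refine Finset.sum_bij (fun x _ => ⟨x.2.1 * x.2.2, x.2.2⟩) ?_ ?_ ?_ ?_
  · rintro ⟨p, q⟩ hx
    simp only [Finset.mem_sigma, Finset.mem_product, Nat.mem_divisorsAntidiagonal,
      Finset.mem_filter, mem_CG, mem_bl] at hx ⊢
    obtain ⟨⟨h1, h2⟩, h3, h4⟩ := hx
    have hp1 : p.1 ≠ 0 := by rintro h; rw [h, zero_mul] at h1; exact h2 h1.symm
    have hp2 : p.2 ≠ 0 := by rintro h; rw [h, mul_zero] at h1; exact h2 h1.symm
    have hq2 : q.2 ≠ 0 := CG_ne hp2 (mem_CG.2 h4)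
    refine ⟨?_, ⟨hq2, ?_⟩, Dvd.intro_left _ rfl⟩
    · rw [Zsqrtd.norm_mul, h3, h4, ← h1]
      push_cast; ring
    · unfold nz
      rw [Zsqrtd.norm_mul, h3, h4]
      have : 1 ≤ p.1 := Nat.one_le_iff_ne_zero.2 hp1
      push_cast
      have h5 : (1 : ℝ) ≤ p.1 := by exact_mod_cast this
      have h6 : (0 : ℝ) ≤ p.2 := Nat.cast_nonneg _
      nlinarith
  · rintro ⟨⟨a, b⟩, ⟨z, w⟩⟩ hx ⟨⟨a', b'⟩, ⟨z', w'⟩⟩ hx' heq
    simp only [Finset.mem_sigma, Finset.mem_product, Nat.mem_divisorsAntidiagonal,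
      mem_CG] at hx hx'
    simp only [Sigma.mk.injEq, heq_eq_eq] at heq
    obtain ⟨h1, h2⟩ := heq
    subst h2
    obtain ⟨⟨h3, h4⟩, h5, h6⟩ := hx
    obtain ⟨⟨h3', h4'⟩, h5', h6'⟩ := hx'
    have hb : b ≠ 0 := by rintro h; rw [h, mul_zero] at h3; exact h4 h3.symm
    have hw : w ≠ 0 := CG_ne hb (mem_CG.2 h6)
    have hz : z = z' := mul_right_cancel₀ hw h1
    subst hz
    have e2 : a = a' := by
      have : (a : ℤ) = a' := by rw [← h5, ← h5']
      exact_mod_cast this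
    have e3 : b = b' := by
      have : (b : ℤ) = b' := by rw [← h6, ← h6']
      exact_mod_cast this
    subst e2; subst e3; rfl
  · rintro ⟨u, w⟩ hx
    simp only [Finset.mem_sigma, Finset.mem_filter, mem_CG, mem_bl] at hx
    obtain ⟨h1, ⟨h2, h3⟩, ⟨z, h4⟩⟩ := hx
    have hz : z.norm = (z.norm.natAbs : ℤ) := (Int.natAbs_of_nonneg (GaussianInt.norm_nonneg z)).symm
    have hw : w.norm = (w.norm.natAbs : ℤ) := (Int.natAbs_of_nonneg (GaussianInt.norm_nonneg w)).symm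
    refine ⟨⟨(z.norm.natAbs, w.norm.natAbs), (z, w)⟩, ?_, ?_⟩
    · simp only [Finset.mem_sigma, Finset.mem_product, Nat.mem_divisorsAntidiagonal, mem_CG]
      refine ⟨⟨?_, hn⟩, hz, hw⟩
      have : ((z.norm.natAbs * w.norm.natAbs : ℕ) : ℤ) = n := by
        push_cast
        rw [← h1, h4, Zsqrtd.norm_mul, ← Int.natAbs_of_nonneg (GaussianInt.norm_nonneg z),
          ← Int.natAbs_of_nonneg (GaussianInt.norm_nonneg w)]
        simp [mul_comm]
      exact_mod_cast this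
    · simp only [Sigma.mk.injEq, heq_eq_eq, and_true]
      rw [h4, mul_comm]
  · rintro ⟨p, q⟩ hx
    simp only
    rw [map_mul]
    ring

theorem conv (hm : S_MUB) {h : ZI →* ℂ} (hh : UH h) : LSeries.convolution (bb h) (bm h) = LSeries.delta := by
  classical
  funext n
  rw [LSeries.convolution_def]
  rcases eq_or_ne n 0 with rfl | hn
  · simp [LSeries.delta]
  have e1 : ∀ p : ℕ × ℕ, bb h p.1 * bm h p.2 =
      1 / 16 * ((∑ z ∈ CG p.1, h z) * (∑ w ∈ CG p.2, (mu w : ℂ) * h w)) := by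
    intro p
    unfold bm
    rw [bb_eq, bb_eq]
    ring
  simp only [e1]
  rw [← Finset.mul_sum, conv_aux h hn]
  have e2 : ∀ u ∈ CG n, h u * ∑ w ∈ (bl (nz u)).filter (fun w => w ∣ u), (mu w : ℂ) =
      if n = 1 then 4 * h u else 0 := by
    intro u hu
    have h1 := hm.2.2.2.1 u (CG_ne hn hu)
    have h2 : ∑ w ∈ (bl (nz u)).filter (fun w => w ∣ u), (mu w : ℂ) =
        ((if IsUnit u then 4 else 0 : ℝ) : ℂ) := by
      rw [← h1]
      push_cast
      rfl
    rw [h2]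
    rw [mem_CG] at hu
    have h3 : IsUnit u ↔ n = 1 := by
      rw [norm_isUnit, hu]
      norm_cast
    by_cases h4 : n = 1
    · rw [if_pos h4, if_pos (h3.2 h4)]; push_cast; ring
    · rw [if_neg h4, if_neg (fun h => h4 (h3.1 h))]; simp
  rw [Finset.sum_congr rfl e2]
  unfold LSeries.delta
  split_ifs with h4
  · subst h4
    have h5 := (lg_bb h hh).b1
    rw [bb_eq] at h5
    rw [← Finset.mul_sum]
    linear_combination h5
  · simp

/-! ### The Dirichlet series -/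

theorem card_conv (n : ℕ) : ((LSeries.convolution (1 : ℕ → ℂ) (1 : ℕ → ℂ)) n) = (n.divisors.card : ℂ) := by
  rw [LSeries.convolution_def]
  simp only [Pi.one_apply, mul_one, Finset.sum_const, nsmul_eq_mul]
  rw [← Nat.map_div_right_divisors, Finset.card_map]

/-- the Dirichlet series of the divisor function -/
theorem dseries {σ : ℝ} (hσ : 1 < σ) :
    Summable (fun n : ℕ => if n = 0 then 0 else (n.divisors.card : ℝ) / (n : ℝ) ^ σ) ∧
    ∑' n : ℕ, (if n = 0 then 0 else (n.divisors.card : ℝ) / (n : ℝ) ^ σ) ≤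
      (1 + 1 / (σ - 1)) ^ 2 := by
  have h1 : LSeriesSummable 1 (σ : ℂ) := LSeriesSummable_one_iff.mpr (by simpa using hσ)
  have h2 := h1.convolution h1
  have h3 : ∀ n : ℕ, LSeries.term (LSeries.convolution (1 : ℕ → ℂ) (1 : ℕ → ℂ)) (σ : ℂ) n =
      ((if n = 0 then 0 else (n.divisors.card : ℝ) / (n : ℝ) ^ σ : ℝ) : ℂ) := by
    intro n
    rcases eq_or_ne n 0 with rfl | hn
    · simp
    · rw [LSeries.term_of_ne_zero hn, card_conv, if_neg hn]
      push_cast
      rw [Complex.ofReal_cpow (Nat.cast_nonneg n)]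
      simp
  have h4 : Summable (fun n : ℕ =>
      if n = 0 then 0 else (n.divisors.card : ℝ) / (n : ℝ) ^ σ) := by
    have h5 : Summable (fun n : ℕ => LSeries.term (LSeries.convolution (1 : ℕ → ℂ) (1 : ℕ → ℂ)) (σ : ℂ) n) := h2
    simp only [h3] at h5
    exact Complex.summable_ofReal.1 h5
  refine ⟨h4, ?_⟩
  have h5 := LSeries_convolution' h1 h1
  have h6 : LSeries (LSeries.convolution (1 : ℕ → ℂ) (1 : ℕ → ℂ)) (σ : ℂ) =
      ((∑' n : ℕ, (if n = 0 then 0 else (n.divisors.card : ℝ) / (n : ℝ) ^ σ) : ℝ) : ℂ) := by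
    unfold LSeries
    simp only [h3]
    rw [Complex.ofReal_tsum]
  have h7 : ‖LSeries 1 (σ : ℂ)‖ ≤ 1 + 1 / (σ - 1) := by
    have h0 := ZetaAsymptotics.zeta_limit_aux1 hσ
    have g1 : ∀ n, ‖LSeries.term 1 (σ : ℂ) n‖ ≤ if n = 0 then 0 else 1 / (n : ℝ) ^ σ := by
      intro n
      rw [LSeries.norm_term_eq]
      split_ifs with h
      · exact le_rfl
      · simp
    have g2 : Summable (fun n : ℕ => 1 / ((n : ℝ) + 1) ^ σ) := by
      have h3 := (Real.summable_one_div_nat_rpow.2 hσ)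
      have h4 := (summable_nat_add_iff 1).2 h3
      simpa using h4
    have g3 : HasSum (fun n : ℕ => if n = 0 then 0 else 1 / (n : ℝ) ^ σ)
        (∑' n : ℕ, 1 / ((n : ℝ) + 1) ^ σ) := by
      rw [← hasSum_nat_add_iff' 1]
      simpa using g2.hasSum
    have g4 : ‖LSeries 1 (σ : ℂ)‖ ≤ ∑' n : ℕ, 1 / ((n : ℝ) + 1) ^ σ := by
      unfold LSeries
      exact tsum_of_norm_bounded g3 g1
    have g5 : 0 ≤ ZetaAsymptotics.termTSum σ := tsum_nonneg fun n => ZetaAsymptotics.term_nonneg _ _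
    have g6 : 0 ≤ σ * ZetaAsymptotics.termTSum σ := by positivity
    linarith
  have h8 : ‖LSeries (LSeries.convolution (1 : ℕ → ℂ) (1 : ℕ → ℂ)) (σ : ℂ)‖ ≤ (1 + 1 / (σ - 1)) ^ 2 := by
    rw [h5, norm_mul, sq]
    exact mul_le_mul h7 h7 (norm_nonneg _) ((norm_nonneg _).trans h7)
  rw [h6, Complex.norm_real] at h8
  exact (le_abs_self _).trans h8

theorem term_le {f : ℕ → ℂ} (hf : ∀ n : ℕ, n ≠ 0 → ‖f n‖ ≤ n.divisors.card) (s : ℂ) (n : ℕ) :
    ‖LSeries.term f s n‖ ≤ if n = 0 then 0 else (n.divisors.card : ℝ) / (n : ℝ) ^ s.re := by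
  rw [LSeries.norm_term_eq]
  split_ifs with h
  · exact le_rfl
  · exact div_le_div_of_nonneg_right (hf n h) (by positivity)

theorem summ_of {f : ℕ → ℂ} (hf : ∀ n : ℕ, n ≠ 0 → ‖f n‖ ≤ n.divisors.card) {s : ℂ}
    (hs : 1 < s.re) : LSeriesSummable f s :=
  Summable.of_norm_bounded (dseries hs).1 (term_le hf s)

theorem norm_L_le {f : ℕ → ℂ} (hf : ∀ n : ℕ, n ≠ 0 → ‖f n‖ ≤ n.divisors.card) {s : ℂ}
    (hs : 1 < s.re) : ‖LSeries f s‖ ≤ (1 + 1 / (s.re - 1)) ^ 2 := by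
  have h1 : ‖LSeries f s‖ ≤
      ∑' n : ℕ, (if n = 0 then 0 else (n.divisors.card : ℝ) / (n : ℝ) ^ s.re) := by
    unfold LSeries
    exact tsum_of_norm_bounded (dseries hs).1.hasSum (term_le hf s)
  exact h1.trans (dseries hs).2

theorem L_mul (hm : S_MUB) {h : ZI →* ℂ} (hh : UH h) {s : ℂ} (hs : 1 < s.re) :
    LSeries (bb h) s * LSeries (bm h) s = 1 := by
  have h1 := LSeries_convolution' (s := s) (summ_of (fun n hn => bb_le h hh.hb n hn) hs)
    (summ_of (fun n hn => bm_le hh n hn) hs)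
  rw [← h1, conv hm hh, LSeries_delta]
  rfl

/-! ### Divisors in short intervals -/

theorem card_div_le {n K : ℕ} (hn : n ≠ 0) (hK : n < (K + 1) ^ 2) :
    n.divisors.card ≤ 2 * ((Icc 1 K).filter (fun a => a ∣ n)).card := by
  have h1 : n.divisors = (n.divisors.filter (fun a => a ≤ K)) ∪
      (n.divisors.filter (fun a => ¬ a ≤ K)) := (Finset.filter_union_filter_not_eq _ _).symm
  have h2 : n.divisors.filter (fun a => a ≤ K) = (Icc 1 K).filter (fun a => a ∣ n) := by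
    ext a
    simp only [Finset.mem_filter, Nat.mem_divisors, Finset.mem_Icc]
    constructor
    · rintro ⟨⟨h3, h4⟩, h5⟩
      exact ⟨⟨Nat.pos_of_dvd_of_pos h3 (Nat.pos_of_ne_zero hn), h5⟩, h3⟩
    · rintro ⟨⟨h3, h4⟩, h5⟩
      exact ⟨⟨h5, hn⟩, h4⟩
  have h3 : (n.divisors.filter (fun a => ¬ a ≤ K)).card ≤
      ((Icc 1 K).filter (fun a => a ∣ n)).card := by
    apply Finset.card_le_card_of_injOn (fun a => n / a)
    · intro a ha
      simp only [Finset.coe_filter, Nat.mem_divisors, Set.mem_ofPred_eq, not_le] at ha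
      simp only [Finset.coe_filter, Finset.mem_Icc, Set.mem_ofPred_eq]
      obtain ⟨⟨h4, h5⟩, h6⟩ := ha
      refine ⟨⟨?_, ?_⟩, Nat.div_dvd_of_dvd h4⟩
      · exact Nat.div_pos (Nat.le_of_dvd (Nat.pos_of_ne_zero hn) h4) (by omega)
      · rw [← Nat.lt_succ_iff, Nat.div_lt_iff_lt_mul (by omega)]
        calc n < (K + 1) ^ 2 := hK
          _ = (K + 1) * (K + 1) := sq _
          _ ≤ K.succ * a := Nat.mul_le_mul_left _ (by omega)
    · intro a ha b hb hab
      simp only [Finset.coe_filter, Nat.mem_divisors, Set.mem_ofPred_eq, not_le] at ha hb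
      simp only at hab
      have h4 : n / (n / a) = n / (n / b) := by rw [hab]
      rwa [Nat.div_div_self ha.1.1 hn, Nat.div_div_self hb.1.1 hn] at h4
  rw [h1]
  refine (Finset.card_union_le _ _).trans ?_
  rw [h2]
  omega

theorem sum_div_le {X Y : ℕ} (hXY : X ≤ Y) :
    ∑ n ∈ Ioc X Y, (n.divisors.card : ℝ) ≤
      2 * (((Y : ℝ) - X) * (1 + Real.log (Nat.sqrt Y)) + Nat.sqrt Y) := by
  set K := Nat.sqrt Y with hK
  have h1 : ∀ n ∈ Ioc X Y, (n.divisors.card : ℝ) ≤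
      2 * ∑ a ∈ Icc 1 K, if a ∣ n then (1 : ℝ) else 0 := by
    intro n hn
    rw [Finset.mem_Ioc] at hn
    have h2 := card_div_le (n := n) (K := K) (by omega) (by
      have := Nat.lt_succ_sqrt' Y
      exact lt_of_le_of_lt hn.2 this)
    have h3 : (n.divisors.card : ℝ) ≤ 2 * ((Icc 1 K).filter (fun a => a ∣ n)).card := by
      exact_mod_cast h2
    refine h3.trans (le_of_eq ?_)
    rw [Finset.sum_ite, Finset.sum_const_zero, add_zero, Finset.sum_const, nsmul_eq_mul, mul_one]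
  refine (Finset.sum_le_sum h1).trans ?_
  rw [← Finset.mul_sum, Finset.sum_comm]
  apply mul_le_mul_of_nonneg_left _ (by norm_num)
  have h2 : ∀ a ∈ Icc 1 K, ∑ n ∈ Ioc X Y, (if a ∣ n then (1 : ℝ) else 0) ≤
      ((Y : ℝ) - X) * (1 / a) + 1 := by
    intro a ha
    rw [Finset.mem_Icc] at ha
    have ha0 : (0 : ℝ) < a := by exact_mod_cast (by omega : 0 < a)
    have h3 : ∑ n ∈ Ioc X Y, (if a ∣ n then (1 : ℝ) else 0) = (Y / a : ℕ) - (X / a : ℕ) := by
      have h4 : ∑ n ∈ Ioc X Y, (if a ∣ n then (1 : ℝ) else 0) =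
          ∑ n ∈ Ioc 0 Y, (if a ∣ n then (1 : ℝ) else 0) -
          ∑ n ∈ Ioc 0 X, (if a ∣ n then (1 : ℝ) else 0) := by
        rw [eq_sub_iff_add_eq, add_comm]
        have := Finset.sum_Ioc_consecutive (fun n => if a ∣ n then (1 : ℝ) else 0)
          (Nat.zero_le X) hXY
        exact this
      have h5 : ∀ Z : ℕ, ∑ n ∈ Ioc 0 Z, (if a ∣ n then (1 : ℝ) else 0) = (Z / a : ℕ) := by
        intro Z
        rw [Finset.sum_ite, Finset.sum_const_zero, add_zero, Finset.sum_const, nsmul_eq_mul,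
          mul_one, Nat.Ioc_filter_dvd_card_eq_div]
      rw [h4, h5, h5]
    rw [h3]
    have h6 : ((Y / a : ℕ) : ℝ) ≤ Y / a := Nat.cast_div_le
    have h7 : (X : ℝ) / a - 1 ≤ ((X / a : ℕ) : ℝ) := by
      rw [sub_le_iff_le_add, div_le_iff₀ ha0]
      have := Nat.lt_div_mul_add (a := X) (b := a) (by omega)
      have h8 : (X : ℝ) ≤ (X / a : ℕ) * a + a := by exact_mod_cast this.le
      linarith
    have : ((Y : ℝ) - X) * (1 / a) = Y / a - X / a := by ring
    rw [this]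
    linarith
  refine (Finset.sum_le_sum h2).trans ?_
  rw [Finset.sum_add_distrib, ← Finset.mul_sum, Finset.sum_const, nsmul_eq_mul, mul_one,
    Nat.card_Icc, Nat.add_sub_cancel]
  have h3 : ∑ a ∈ Icc 1 K, (1 / (a : ℝ)) ≤ 1 + Real.log K := by
    have := harmonic_le_one_add_log K
    rw [harmonic_eq_sum_Icc] at this
    push_cast at this
    simpa [one_div] using this
  have h4 : (0 : ℝ) ≤ (Y : ℝ) - X := by
    have : (X : ℝ) ≤ Y := by exact_mod_cast hXY
    linarith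
  have := mul_le_mul_of_nonneg_left h3 h4
  linarith

end Pool.Agent.N27.GN
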