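import Pool.Agent.N27.GN.PerA
import Pool.Agent.W66.PA

/-!
# GN/PER, part B: the smoothed sum and the contour shift (after `Pool.Agent.Y25.VK`)
-/

set_option autoImplicit false

namespace Pool.Agent.N27.GN

open Complex Filter Topology Set MeasureTheory Metric
open scoped Real
open Pool.Agent.H379R2.SW (vert vert_re vert_im vert_ne_zero continuous_vert)
open Pool.Agent.W66 (exp_vert integrable_inv_norm_vert_sq' perron_vert)

/-- the smoothed sum -/
noncomputable def RS (f : ℕ → ℂ) (v : ℝ) : ℂ :=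
  ∑' n : ℕ, LSeries.term f 0 n * ((max (v - Real.log n) 0 : ℝ) : ℂ)

lemma norm_exp_vert (c ξ u : ℝ) : ‖cexp (vert c ξ * u)‖ = Real.exp (c * u) := by
  rw [exp_vert, norm_mul, Complex.norm_exp_ofReal_mul_I, mul_one, Complex.norm_real,
    Real.norm_of_nonneg (Real.exp_pos _).le]

theorem RS_eq {f : ℕ → ℂ} {c : ℝ} (hc : 1 < c) (ha : LSeriesSummable f (c : ℂ)) (v : ℝ) :
    RS f v = ∫ ξ : ℝ, LSeries f (vert c ξ) * (cexp (vert c ξ * v) / (vert c ξ) ^ 2) := by
  have hc0 : 0 < c := by linarith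
  set F : ℕ → ℝ → ℂ := fun n ξ => LSeries.term f (vert c ξ) n *
    (cexp (vert c ξ * v) / (vert c ξ) ^ 2) with hF
  have hterm : ∀ n ξ, F n ξ = LSeries.term f 0 n *
      (cexp (vert c ξ * ((v - Real.log n : ℝ) : ℂ)) / (vert c ξ) ^ 2) := by
    intro n ξ
    simp only [hF]
    rcases Nat.eq_zero_or_pos n with rfl | hn
    · simp
    · rw [LSeries.term_of_ne_zero hn.ne', LSeries.term_of_ne_zero hn.ne']
      have hnc : (n : ℂ) ≠ 0 := by exact_mod_cast hn.ne'
      have h1 : (n : ℂ) ^ (vert c ξ) = cexp (vert c ξ * (Real.log n : ℝ)) := by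
        rw [Complex.cpow_def_of_ne_zero hnc, ← Complex.natCast_log]
        congr 1
        ring
      have h2 : cexp (vert c ξ * ((v - Real.log n : ℝ) : ℂ)) =
          cexp (vert c ξ * v) / cexp (vert c ξ * (Real.log n : ℝ)) := by
        rw [← Complex.exp_sub]
        congr 1
        push_cast
        ring
      rw [h1, h2, Complex.cpow_zero]
      have h4 := Complex.exp_ne_zero (vert c ξ * (Real.log n : ℝ))
      have h5 := vert_ne_zero hc0 ξ
      field_simp
  have hnorm : ∀ n ξ, ‖F n ξ‖ = ‖LSeries.term f (c : ℂ) n‖ *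
      (Real.exp (c * v) * (‖vert c ξ‖ ^ 2)⁻¹) := by
    intro n ξ
    simp only [hF]
    rw [norm_mul, norm_div, norm_exp_vert, norm_pow, div_eq_mul_inv]
    congr 1
    rw [LSeries.norm_term_eq, LSeries.norm_term_eq]
    congr 2
    simp [vert_re]
  have hkint := integrable_inv_norm_vert_sq' hc0
  have hFint : ∀ n, Integrable (F n) := by
    intro n
    refine Integrable.mono' ((hkint.const_mul (Real.exp (c * v))).const_mul
      ‖LSeries.term f (c : ℂ) n‖) ?_ ?_
    · apply Continuous.aestronglyMeasurable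
      have : F n = fun ξ => LSeries.term f 0 n *
        (cexp (vert c ξ * ((v - Real.log n : ℝ) : ℂ)) / (vert c ξ) ^ 2) :=
        funext (hterm n)
      rw [this]
      have h1 := continuous_vert c
      exact continuous_const.mul (Continuous.div (by fun_prop) (h1.pow 2)
        (fun ξ => pow_ne_zero 2 (vert_ne_zero hc0 ξ)))
    · exact Eventually.of_forall (fun ξ => (hnorm n ξ).le)
  have hFsum : Summable (fun n => ∫ ξ, ‖F n ξ‖) := by
    simp only [hnorm, integral_const_mul]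
    exact ha.norm.mul_right _
  have hmain := hasSum_integral_of_summable_integral_norm hFint hFsum
  have hI : ∀ n, ∫ ξ, F n ξ = LSeries.term f 0 n * ((max (v - Real.log n) 0 : ℝ) : ℂ) := by
    intro n
    have h1 : ∫ ξ, F n ξ = LSeries.term f 0 n *
        ∫ ξ : ℝ, (cexp (vert c ξ * ((v - Real.log n : ℝ) : ℂ)) / (vert c ξ) ^ 2) := by
      simp only [hterm]
      rw [integral_const_mul]
    rw [h1, perron_vert hc0]
  simp only [hI] at hmain
  unfold RS
  rw [hmain.tsum_eq]
  congr 1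
  ext ξ
  simp only [hF]
  rw [tsum_mul_right]
  rfl

lemma tail_arctan {R : ℝ} (hR : 1 ≤ R) : π - 2 * Real.arctan R ≤ 2 / R := by
  have hR0 : 0 < R := by linarith
  have h1 := Real.arctan_inv_of_pos hR0
  have h2 : Real.arctan R⁻¹ ≤ R⁻¹ := by
    have h4 := Real.lt_tan (x := Real.arctan R⁻¹) (by
      rw [Real.arctan_pos]; positivity) (Real.arctan_lt_pi_div_two _)
    rw [Real.tan_arctan] at h4
    exact h4.le
  rw [h1] at h2
  have : 2 / R = 2 * R⁻¹ := by ring
  rw [this]
  linarith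

theorem RS_bound {f : ℕ → ℂ} (hf : ∀ n : ℕ, n ≠ 0 → ‖f n‖ ≤ n.divisors.card) {L : ℂ → ℂ}
    {T w H v : ℝ} (hT : 1 ≤ T) (hw0 : 0 < w) (hw1 : w ≤ 1 / 20) (hH1 : 1 ≤ H) (hv : 1 ≤ v)
    (hL : DifferentiableOn ℂ L {s | 1 - 2 * w < s.re})
    (hLf : ∀ s : ℂ, 1 < s.re → L s * LSeries f s = 1)
    (hLR : ∀ s : ℂ, 1 - w ≤ s.re → s.re ≤ 3 → |s.im| ≤ T → L s ≠ 0 ∧ ‖(L s)⁻¹‖ ≤ H) :
    ‖RS f v‖ ≤ 48 * Real.exp v * (H * Real.exp (-(w * v)) + (v ^ 2 + H) / T) := by
  have hH0 : 0 < H := by linarith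
  have hv0 : 0 < v := by linarith
  have hT0 : 0 < T := by linarith
  set c1 : ℝ := 1 + 1 / v with hc1
  have hiv : 0 < 1 / v := by positivity
  have hiv1 : 1 / v ≤ 1 := by rw [div_le_one hv0]; exact hv
  have hc10 : 1 < c1 := by linarith
  have hc12 : c1 ≤ 2 := by linarith
  set b0 : ℝ := 1 - w with hb0
  have hb0' : 1 / 2 ≤ b0 := by linarith
  set G : ℂ → ℂ := fun s => (L s)⁻¹ * (cexp (s * v) / s ^ 2) with hG
  have he1 : Real.exp 1 ≤ 3 := by linarith [Real.exp_one_lt_d9]
  have hev0 := Real.exp_pos v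
  have hec : Real.exp (c1 * v) ≤ 3 * Real.exp v := by
    have h1 : c1 * v = 1 + v := by rw [hc1]; field_simp; ring
    rw [h1, Real.exp_add]
    gcongr
  have hop : IsOpen {s : ℂ | 1 - 2 * w < s.re} := isOpen_lt continuous_const Complex.continuous_re
  -- lower bound for the square
  have hsq : ∀ s : ℂ, 1 / 2 ≤ s.re → (1 + s.im ^ 2) / 4 ≤ ‖s ^ 2‖ := by
    intro s hs
    rw [norm_pow, Complex.sq_norm, Complex.normSq_apply]
    nlinarith [sq_nonneg s.im]
  -- on the rectangle
  have hrect : ∀ s : ℂ, b0 ≤ s.re → s.re ≤ c1 → |s.im| ≤ T → L s ≠ 0 ∧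
      ‖G s‖ ≤ 4 * H * (1 + s.im ^ 2)⁻¹ * Real.exp (s.re * v) := by
    intro s h1 h2 h3
    obtain ⟨k1, k2⟩ := hLR s h1 (by linarith) h3
    refine ⟨k1, ?_⟩
    simp only [hG]
    rw [norm_mul, norm_div, Complex.norm_exp, Complex.re_mul_ofReal]
    have h4 := hsq s (by linarith)
    have h5 : 0 < 1 + s.im ^ 2 := by positivity
    have h6 : Real.exp (s.re * v) / ‖s ^ 2‖ ≤ Real.exp (s.re * v) / ((1 + s.im ^ 2) / 4) :=
      div_le_div_of_nonneg_left (Real.exp_pos _).le (by positivity) h4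
    calc ‖(L s)⁻¹‖ * (Real.exp (s.re * v) / ‖s ^ 2‖) ≤
        H * (Real.exp (s.re * v) / ((1 + s.im ^ 2) / 4)) :=
          mul_le_mul k2 h6 (by positivity) hH0.le
      _ = _ := by field_simp
  have hGd : ∀ s : ℂ, 1 - w ≤ s.re → L s ≠ 0 → s ≠ 0 → DifferentiableAt ℂ G s := by
    intro s hs1 hs hs0
    have h3 : DifferentiableAt ℂ L s := hL.differentiableAt (hop.mem_nhds (by
      change 1 - 2 * w < s.re
      linarith))
    exact (h3.inv hs).mul (DifferentiableAt.div (by fun_prop) (by fun_prop) (pow_ne_zero 2 hs0))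
  have hLne : ∀ s : ℂ, 1 < s.re → L s ≠ 0 ∧ (L s)⁻¹ = LSeries f s := by
    intro s hs
    have h1 := hLf s hs
    refine ⟨left_ne_zero_of_mul_eq_one h1, ?_⟩
    exact inv_eq_of_mul_eq_one_right h1
  -- the line integral as an integral over `t`
  have hline : RS f v = ((2 * π)⁻¹ : ℝ) • ∫ t : ℝ, G (c1 + t * I) := by
    rw [RS_eq hc10 (summ_of hf (by simpa using hc10))]
    have h1 : ∀ ξ : ℝ, LSeries f (vert c1 ξ) *
        (cexp (vert c1 ξ * v) / (vert c1 ξ) ^ 2) = (fun t : ℝ => G (c1 + t * I)) (2 * π * ξ) := by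
      intro ξ
      rw [← (hLne (vert c1 ξ) (by simp only [vert_re]; exact hc10)).2]
      simp only [hG, vert]
    simp only [h1]
    rw [MeasureTheory.Measure.integral_comp_mul_left (fun t : ℝ => G (c1 + t * I)) (2 * π),
      abs_of_pos (by positivity)]
  -- bound on the whole line
  have hGline : ∀ t : ℝ, ‖G (c1 + t * I)‖ ≤ (12 * v ^ 2 * Real.exp v) * (1 + t ^ 2)⁻¹ := by
    intro t
    have hre2 : ((c1 : ℂ) + t * I).re = c1 := by simp
    have him2 : ((c1 : ℂ) + t * I).im = t := by simp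
    have h0 : 1 < ((c1 : ℂ) + t * I).re := by rw [hre2]; exact hc10
    have h1 := norm_L_le hf h0
    rw [hre2, ← (hLne _ h0).2] at h1
    have h2 : (1 + 1 / (c1 - 1)) ^ 2 ≤ 4 * v ^ 2 := by
      have : c1 - 1 = 1 / v := by rw [hc1]; ring
      rw [this, one_div_one_div]
      nlinarith
    simp only [hG]
    rw [norm_mul, norm_div, Complex.norm_exp, Complex.re_mul_ofReal, hre2]
    have h3 : 1 + t ^ 2 ≤ ‖((c1 : ℂ) + t * I) ^ 2‖ := by
      rw [norm_pow, Complex.sq_norm, Complex.normSq_apply, hre2, him2]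
      nlinarith
    have h4 : 0 < 1 + t ^ 2 := by positivity
    calc ‖(L ((c1 : ℂ) + t * I))⁻¹‖ * (Real.exp (c1 * v) / ‖((c1 : ℂ) + t * I) ^ 2‖) ≤
        (4 * v ^ 2) * (3 * Real.exp v / (1 + t ^ 2)) :=
          mul_le_mul (h1.trans h2) (div_le_div₀ (by positivity) hec h4 h3) (by positivity)
            (by positivity)
      _ = _ := by rw [div_eq_mul_inv]; ring
  have hGcont : Continuous fun t : ℝ => G (c1 + t * I) := by
    rw [continuous_iff_continuousAt]
    intro t
    have hre2 : ((c1 : ℂ) + t * I).re = c1 := by simp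
    have h1 : L ((c1 : ℂ) + t * I) ≠ 0 := (hLne _ (by rw [hre2]; exact hc10)).1
    have h2 : ContinuousAt (fun t : ℝ => (c1 : ℂ) + t * I) t := by fun_prop
    have h3 : (c1 : ℂ) + t * I ≠ 0 := by
      intro h
      rw [h] at hre2
      simp at hre2
      linarith
    exact ContinuousAt.comp (g := G) (f := fun t : ℝ => (c1 : ℂ) + t * I)
      (hGd _ (by rw [hre2]; linarith) h1 h3).continuousAt h2
  have hGint : Integrable fun t : ℝ => G (c1 + t * I) :=
    (integrable_inv_one_add_sq.const_mul (12 * v ^ 2 * Real.exp v)).mono'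
      hGcont.aestronglyMeasurable (Eventually.of_forall hGline)
  -- the tail
  have htail : ‖∫ t in (Set.Ioc (-T) T)ᶜ, G (c1 + t * I)‖ ≤
      (12 * v ^ 2 * Real.exp v) * (2 / T) := by
    have h1 : ‖∫ t in (Set.Ioc (-T) T)ᶜ, G (c1 + t * I)‖ ≤
        ∫ t in (Set.Ioc (-T) T)ᶜ, (12 * v ^ 2 * Real.exp v) * (1 + t ^ 2)⁻¹ :=
      norm_integral_le_of_norm_le (integrable_inv_one_add_sq.const_mul _).integrableOn
        (Eventually.of_forall fun t => hGline t)
    refine h1.trans ?_
    rw [integral_const_mul]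
    apply mul_le_mul_of_nonneg_left _ (by positivity)
    have h2 := integral_add_compl (measurableSet_Ioc (a := -T) (b := T)) integrable_inv_one_add_sq
      (μ := volume)
    rw [integral_univ_inv_one_add_sq, ← intervalIntegral.integral_of_le (by linarith),
      integral_inv_one_add_sq, Real.arctan_neg] at h2
    have h3 := tail_arctan hT
    linarith
  -- the rectangle
  have hcauchy := Complex.integral_boundary_rect_eq_zero_of_differentiableOn G
    (⟨b0, -T⟩ : ℂ) (⟨c1, T⟩ : ℂ) (by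
      intro s hs
      rw [Complex.mem_reProdIm] at hs
      simp only at hs
      rw [uIcc_of_le (by linarith), uIcc_of_le (by linarith)] at hs
      have hs0 : s ≠ 0 := by
        intro h
        rw [h] at hs
        have := hs.1.1
        simp at this
        linarith
      exact (hGd s hs.1.1 (hrect s hs.1.1 hs.1.2 (abs_le.2 hs.2)).1
        hs0).differentiableWithinAt)
  simp only at hcauchy
  have hhor : ∀ r : ℝ, |r| = T → ‖∫ x : ℝ in b0..c1, G (x + ((r : ℝ) : ℂ) * I)‖ ≤
      24 * H * Real.exp v / T ^ 2 := by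
    intro r hr
    have h1 : ∀ x ∈ Set.uIoc b0 c1, ‖G (x + ((r : ℝ) : ℂ) * I)‖ ≤
        12 * H * Real.exp v / T ^ 2 := by
      intro x hx
      rw [uIoc_of_le (by linarith)] at hx
      have hre : ((x : ℂ) + ((r : ℝ) : ℂ) * I).re = x := by simp
      have him : ((x : ℂ) + ((r : ℝ) : ℂ) * I).im = r := by simp
      have h2 := (hrect ((x : ℂ) + ((r : ℝ) : ℂ) * I) (by rw [hre]; exact hx.1.le)
        (by rw [hre]; exact hx.2) (by rw [him, hr])).2
      rw [hre, him] at h2
      refine h2.trans ?_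
      have h3 : Real.exp (x * v) ≤ 3 * Real.exp v :=
        (Real.exp_le_exp.2 (mul_le_mul_of_nonneg_right hx.2 hv0.le)).trans hec
      have h4 : (1 + r ^ 2)⁻¹ ≤ (T ^ 2)⁻¹ := by
        apply inv_anti₀ (by positivity)
        rw [← hr, sq_abs]
        linarith
      calc 4 * H * (1 + r ^ 2)⁻¹ * Real.exp (x * v) ≤ 4 * H * (T ^ 2)⁻¹ * (3 * Real.exp v) := by
            gcongr
        _ = _ := by rw [div_eq_mul_inv]; ring
    refine (intervalIntegral.norm_integral_le_of_norm_le_const h1).trans ?_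
    have h5 : |c1 - b0| ≤ 2 := by
      rw [abs_of_pos (by linarith)]
      linarith
    calc _ ≤ 12 * H * Real.exp v / T ^ 2 * 2 := by
          apply mul_le_mul_of_nonneg_left h5 (by positivity)
      _ = _ := by ring
  have hbot := hhor (-T) (by rw [abs_neg, abs_of_pos hT0])
  have htop := hhor T (abs_of_pos hT0)
  have hleft : ‖∫ y : ℝ in (-T)..T, G (((b0 : ℝ) : ℂ) + y * I)‖ ≤
      16 * H * (Real.exp v * Real.exp (-(w * v))) := by
    have h1 : ∀ y ∈ Set.Ioc (-T) T, ‖G (((b0 : ℝ) : ℂ) + y * I)‖ ≤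
        4 * H * (Real.exp v * Real.exp (-(w * v))) * (1 + y ^ 2)⁻¹ := by
      intro y hy
      have hre : (((b0 : ℝ) : ℂ) + y * I).re = b0 := by simp
      have him : (((b0 : ℝ) : ℂ) + y * I).im = y := by simp
      have h2 := (hrect (((b0 : ℝ) : ℂ) + y * I) (by rw [hre])
        (by rw [hre]; linarith) (by rw [him]; exact abs_le.2 ⟨hy.1.le, hy.2⟩)).2
      rw [hre, him] at h2
      refine h2.trans (le_of_eq ?_)
      have h3 : b0 * v = v + -(w * v) := by rw [hb0]; ring
      rw [h3, Real.exp_add]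
      ring
    have h2 := intervalIntegral.norm_integral_le_of_norm_le (μ := volume) (a := -T) (b := T)
      (f := fun y : ℝ => G (((b0 : ℝ) : ℂ) + y * I))
      (g := fun y => 4 * H * (Real.exp v * Real.exp (-(w * v))) * (1 + y ^ 2)⁻¹)
      (by linarith) (Eventually.of_forall h1)
      ((integrable_inv_one_add_sq.const_mul _).intervalIntegrable)
    refine h2.trans ?_
    rw [intervalIntegral.integral_const_mul, integral_inv_one_add_sq]
    have h3 := Real.arctan_lt_pi_div_two T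
    have h4 := Real.neg_pi_div_two_lt_arctan (-T)
    have h5 := Real.pi_lt_four
    calc 4 * H * (Real.exp v * Real.exp (-(w * v))) * (Real.arctan T - Real.arctan (-T)) ≤
        4 * H * (Real.exp v * Real.exp (-(w * v))) * 4 := by
          apply mul_le_mul_of_nonneg_left _ (by positivity)
          linarith
      _ = _ := by ring
  have hmid : ‖∫ y : ℝ in (-T)..T, G ((c1 : ℂ) + y * I)‖ ≤
      16 * H * (Real.exp v * Real.exp (-(w * v))) + 2 * (24 * H * Real.exp v / T ^ 2) := by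
    have h1 : I • ∫ y : ℝ in (-T)..T, G ((c1 : ℂ) + y * I) =
        I • (∫ y : ℝ in (-T)..T, G (((b0 : ℝ) : ℂ) + y * I)) -
        (∫ x : ℝ in b0..c1, G (x + ((-T : ℝ) : ℂ) * I)) +
        ∫ x : ℝ in b0..c1, G (x + ((T : ℝ) : ℂ) * I) := by
      linear_combination hcauchy
    have h2 : ‖∫ y : ℝ in (-T)..T, G ((c1 : ℂ) + y * I)‖ =
        ‖I • ∫ y : ℝ in (-T)..T, G ((c1 : ℂ) + y * I)‖ := by
      rw [norm_smul, Complex.norm_I, one_mul]
    rw [h2, h1]
    refine (norm_add_le _ _).trans ?_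
    have h3 := norm_sub_le (I • (∫ y : ℝ in (-T)..T, G (((b0 : ℝ) : ℂ) + y * I)))
      (∫ x : ℝ in b0..c1, G (x + ((-T : ℝ) : ℂ) * I))
    rw [norm_smul, Complex.norm_I, one_mul] at h3
    linarith
  rw [hline, norm_smul, Real.norm_of_nonneg (by positivity)]
  have htot : ‖∫ t : ℝ, G (c1 + t * I)‖ ≤ (16 * H * (Real.exp v * Real.exp (-(w * v))) +
      2 * (24 * H * Real.exp v / T ^ 2)) + (12 * v ^ 2 * Real.exp v) * (2 / T) := by
    rw [← integral_add_compl (measurableSet_Ioc (a := -T) (b := T)) hGint,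
      ← intervalIntegral.integral_of_le (by linarith)]
    exact (norm_add_le _ _).trans (add_le_add hmid htail)
  have hpi : (2 * π)⁻¹ ≤ 1 := by
    apply inv_le_one_of_one_le₀
    have := Real.pi_gt_three
    linarith
  have hTT : H / T ^ 2 ≤ H / T := by
    apply div_le_div_of_nonneg_left hH0.le hT0
    nlinarith
  calc (2 * π)⁻¹ * ‖∫ t : ℝ, G (c1 + t * I)‖ ≤ 1 * ‖∫ t : ℝ, G (c1 + t * I)‖ :=
        mul_le_mul_of_nonneg_right hpi (norm_nonneg _)
    _ ≤ (16 * H * (Real.exp v * Real.exp (-(w * v))) +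
      2 * (24 * H * Real.exp v / T ^ 2)) + (12 * v ^ 2 * Real.exp v) * (2 / T) := by
        rw [one_mul]; exact htot
    _ = 16 * (Real.exp v * (H * Real.exp (-(w * v)))) + 48 * (Real.exp v * (H / T ^ 2)) +
        24 * (Real.exp v * (v ^ 2 / T)) := by ring
    _ ≤ 48 * (Real.exp v * (H * Real.exp (-(w * v)))) + 48 * (Real.exp v * (H / T)) +
        48 * (Real.exp v * (v ^ 2 / T)) := by
        have p1 : 0 ≤ Real.exp v * (H * Real.exp (-(w * v))) := by positivity
        have p3 : 0 ≤ Real.exp v * (v ^ 2 / T) := by positivity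
        have p4 := mul_le_mul_of_nonneg_left hTT hev0.le
        linarith
    _ = _ := by ring

end Pool.Agent.N27.GN
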